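import Mathlib

set_option autoImplicit false

/-!
An automorphism of finite order of a complex affine domain which fixes a point and acts trivially
on its tangent space is the identity.
-/

namespace Pool.Agent.Y59.RI

section Local

variable {R : Type} [CommRing R] [Algebra ℂ R]

/-- If every point derivation at `x` is invariant under `β`, then `β` is the identity on
`m / m ^ 2`. -/
theorem sub_mem_sq (β : R ≃ₐ[ℂ] R) (x : R →ₐ[ℂ] ℂ) (hx : ∀ f, x (β f) = x f)
    (hT : ∀ D : R →ₗ[ℂ] ℂ, (∀ f g, D (f * g) = x f * D g + x g * D f) → ∀ f, D (β f) = D f)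
    (f : R) : β f - f ∈ RingHom.ker (x : R →+* ℂ) ^ 2 := by
  set m : Ideal R := RingHom.ker (x : R →+* ℂ) with hm
  by_contra hcon
  let W : Submodule ℂ R := (m ^ 2).restrictScalars ℂ
  have hW : (Submodule.Quotient.mk (β f - f) : R ⧸ W) ≠ 0 := by
    intro h
    rw [Submodule.Quotient.mk_eq_zero] at h
    exact hcon h
  obtain ⟨φ, hφ⟩ : ∃ φ : (R ⧸ W) →ₗ[ℂ] ℂ, φ (Submodule.Quotient.mk (β f - f)) ≠ 0 := by
    by_contra hall
    push Not at hall
    exact hW ((Module.forall_dual_apply_eq_zero_iff ℂ _).1 hall)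
  let L : R →ₗ[ℂ] ℂ := φ.comp W.mkQ
  have hL : ∀ g ∈ m ^ 2, L g = 0 := by
    intro g hg
    have : W.mkQ g = 0 := by
      rw [Submodule.mkQ_apply, Submodule.Quotient.mk_eq_zero]
      exact hg
    show φ (W.mkQ g) = 0
    rw [this, map_zero]
  let D : R →ₗ[ℂ] ℂ := L - (L 1) • x.toLinearMap
  have hD : ∀ g, D g = L g - L 1 * x g := fun g => rfl
  have hder : ∀ g h, D (g * h) = x g * D h + x h * D g := by
    intro g h
    have h1 : (g - algebraMap ℂ R (x g)) * (h - algebraMap ℂ R (x h)) ∈ m ^ 2 := by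
      rw [pow_two]
      apply Ideal.mul_mem_mul
      · rw [hm, RingHom.mem_ker]
        simp
      · rw [hm, RingHom.mem_ker]
        simp
    have h2 := hL _ h1
    have h3 : (g - algebraMap ℂ R (x g)) * (h - algebraMap ℂ R (x h)) =
        g * h - x g • h - x h • g + (x g * x h) • (1 : R) := by
      rw [Algebra.smul_def, Algebra.smul_def, Algebra.smul_def, map_mul]
      ring
    rw [h3, map_add, map_sub, map_sub, map_smul, map_smul, map_smul] at h2
    simp only [smul_eq_mul] at h2
    rw [hD, hD, hD, map_mul x g h]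
    linear_combination h2
  have h4 := hT D hder f
  rw [hD, hD, hx f] at h4
  have h5 : L (β f - f) = 0 := by
    rw [map_sub]
    linear_combination h4
  exact hφ h5

variable (β : R ≃ₐ[ℂ] R) (m : Ideal R)

theorem map_mem_pow (h0 : ∀ f, β f - f ∈ m) (j : ℕ) : ∀ h ∈ m ^ j, β h ∈ m ^ j := by
  have h1 : ∀ f ∈ m, β f ∈ m := by
    intro f hf
    have := m.add_mem (h0 f) hf
    simpa using this
  induction j with
  | zero => intro h _; simp
  | succ j ih =>
    intro h hh
    rw [pow_succ] at hh ⊢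
    refine Submodule.mul_induction_on hh ?_ ?_
    · intro a ha b hb
      rw [map_mul]
      exact Ideal.mul_mem_mul (ih a ha) (h1 b hb)
    · intro a b ha hb
      rw [map_add]
      exact Ideal.add_mem _ ha hb

theorem sub_mem_pow_succ (h0 : ∀ f, β f - f ∈ m ^ 2) (j : ℕ) :
    ∀ h ∈ m ^ j, β h - h ∈ m ^ (j + 1) := by
  have h0' : ∀ f, β f - f ∈ m := fun f => Ideal.pow_le_self (by norm_num) (h0 f)
  induction j with
  | zero => intro h _; simpa using h0' h
  | succ j ih =>
    intro h hh
    rw [pow_succ] at hh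
    refine Submodule.mul_induction_on hh ?_ ?_
    · intro a ha b hb
      have h1 : β (a * b) - a * b = (β a - a) * β b + a * (β b - b) := by
        rw [map_mul]; ring
      rw [h1]
      apply Ideal.add_mem
      · have h2 : β b ∈ m := by
          have := m.add_mem (h0' b) hb
          simpa using this
        rw [pow_succ]
        exact Ideal.mul_mem_mul (ih a ha) h2
      · have h3 : m ^ (j + 1 + 1) = m ^ j * m ^ 2 := by
          rw [← pow_add]
        rw [h3]
        exact Ideal.mul_mem_mul ha (h0 b)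
    · intro a b ha hb
      have h1 : β (a + b) - (a + b) = (β a - a) + (β b - b) := by
        rw [map_add]; ring
      rw [h1]
      exact Ideal.add_mem _ ha hb

theorem iter_sub_mem (h0 : ∀ f, β f - f ∈ m ^ 2) (j i : ℕ) :
    ∀ h ∈ m ^ j, (β ^ i) h - h ∈ m ^ (j + 1) := by
  have h0' : ∀ f, β f - f ∈ m := fun f => Ideal.pow_le_self (by norm_num) (h0 f)
  induction i with
  | zero => intro h _; simp
  | succ i ih =>
    intro h hh
    have h1 : (β ^ (i + 1)) h - h = ((β ^ i) (β h) - β h) + (β h - h) := by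
      rw [pow_succ]
      show (β ^ i) (β h) - h = _
      ring
    rw [h1]
    exact Ideal.add_mem _ (ih _ (map_mem_pow β m h0' j h hh)) (sub_mem_pow_succ β m h0 j h hh)

theorem sub_mem_all (h0 : ∀ f, β f - f ∈ m ^ 2) {n : ℕ} (hn : 0 < n) (hβ : β ^ n = 1) (k : ℕ) :
    ∀ f, β f - f ∈ m ^ k := by
  induction k with
  | zero => intro f; simp
  | succ k ih =>
    intro f
    have tele : ∀ i : ℕ, (β ^ i) f - f = ∑ l ∈ Finset.range i, (β ^ l) (β f - f) := by
      intro i
      induction i with
      | zero => simp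
      | succ i ihi =>
        rw [Finset.sum_range_succ, ← ihi, pow_succ]
        show (β ^ i) (β f) - f = _
        rw [map_sub]
        ring
    have h1 := tele n
    rw [hβ] at h1
    have h2 : ∑ l ∈ Finset.range n, (β ^ l) (β f - f) =
        (n : R) * (β f - f) + ∑ l ∈ Finset.range n, ((β ^ l) (β f - f) - (β f - f)) := by
      rw [Finset.sum_sub_distrib, Finset.sum_const, Finset.card_range, nsmul_eq_mul]
      ring
    have h3 : ∑ l ∈ Finset.range n, ((β ^ l) (β f - f) - (β f - f)) ∈ m ^ (k + 1) :=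
      Ideal.sum_mem _ fun l _ => iter_sub_mem β m h0 k l _ (ih f)
    have h4 : (n : R) * (β f - f) ∈ m ^ (k + 1) := by
      have h5 : (n : R) * (β f - f) =
          -(∑ l ∈ Finset.range n, ((β ^ l) (β f - f) - (β f - f))) := by
        have h6 : (1 : R ≃ₐ[ℂ] R) f - f = 0 := by simp
        rw [h6] at h1
        linear_combination -h1 - h2
      rw [h5]
      exact Ideal.neg_mem_iff _ |>.2 h3
    have h7 : (β f - f) = algebraMap ℂ R ((n : ℂ)⁻¹) * ((n : R) * (β f - f)) := by
      rw [← mul_assoc]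
      have h8 : algebraMap ℂ R ((n : ℂ)⁻¹) * (n : R) = 1 := by
        have h9 : (n : R) = algebraMap ℂ R (n : ℂ) := by simp
        rw [h9, ← map_mul, inv_mul_cancel₀ (by exact_mod_cast hn.ne'), map_one]
      rw [h8, one_mul]
    rw [h7]
    exact Ideal.mul_mem_left _ _ h4

/-- An automorphism of finite order of a noetherian domain over `ℂ` which fixes a point and all
point derivations there is the identity. -/
theorem eq_one_of_tangent [IsDomain R] [IsNoetherianRing R] (x : R →ₐ[ℂ] ℂ)
    (hx : ∀ f, x (β f) = x f)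
    (hT : ∀ D : R →ₗ[ℂ] ℂ, (∀ f g, D (f * g) = x f * D g + x g * D f) → ∀ f, D (β f) = D f)
    {n : ℕ} (hn : 0 < n) (hβ : β ^ n = 1) : β = 1 := by
  have h0 := sub_mem_sq β x hx hT
  have hne : RingHom.ker (x : R →+* ℂ) ≠ ⊤ := RingHom.ker_ne_top _
  have h1 := Ideal.iInf_pow_eq_bot_of_isDomain _ hne
  ext f
  have h2 : β f - f ∈ (⨅ i : ℕ, RingHom.ker (x : R →+* ℂ) ^ i : Ideal R) := by
    rw [Ideal.mem_iInf]
    intro k
    exact sub_mem_all β _ h0 hn hβ k f
  rw [h1, Ideal.mem_bot, sub_eq_zero] at h2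
  simpa using h2

end Local

end Pool.Agent.Y59.RI
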