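import Pool.Agent.Helper198.PartM

set_option autoImplicit false
set_option linter.unusedSectionVars false
set_option linter.unusedSimpArgs false
set_option linter.unusedVariables false

/-!
Prescribed isotropy representations: exact stabilisers and distinct orbits.
-/

open scoped Matrix

namespace Pool.Agent.Y59.RI

open Pool.Agent.Helper198

section Main

variable {G E D M : Type} [Group G] [Fintype G] [DecidableEq G] [Fintype E] [DecidableEq E]
  [Fintype D] [DecidableEq D] [Fintype M] [DecidableEq M]
variable {k K : Type} [Field k] [Field K] [Algebra k K] [Algebra (Kap G E k) K]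
  [IsScalarTower k (Kap G E k) K]
variable {h : Polynomial k} {ℓ : G × E → k} {γ0 : Matrix (G × E) (D ⊕ M) k}
    {γ0' : Matrix (D ⊕ M) (G × E) k}

/-- `ring_main` of `PartJ` with one more conclusion (the values of the points on the matrix
coordinates), same proof. -/
theorem ring_main2 {I : Type} [Nonempty I] [CharZero K]
    (hcard : Fintype.card (G × E) = Fintype.card (D ⊕ M))
    (h01 : γ0 * γ0' = 1) (h02 : γ0' * γ0 = 1)
    (γ : I → Matrix (G × E) (D ⊕ M) k) (γ' : I → Matrix (D ⊕ M) (G × E) k)
    (sD : I → D → G × E) (dat : ∀ i, Datum h ℓ γ0 (γ i) (γ' i) (sD i))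
    (H : I → Subgroup G) (ρ : ∀ i, H i → Matrix D D k)
    (hρ : ∀ i (g : H i) a b, γ i (tr (g : G)⁻¹ (sD i a)) (Sum.inl b) = ρ i g a b)
    (hfix : ∀ i (g : H i) s t, (γ i * EE D M k * γ' i) (tr (g : G) s) (tr (g : G) t) =
      (γ i * EE D M k * γ' i) s t)
    (hdist : ∀ i j, γ i * EE D M k * γ' i = γ j * EE D M k * γ' j → i = j) :
    ∃ (R : Type) (_ : CommRing R) (_ : IsDomain R) (_ : Algebra K R) (_ : Algebra.FiniteType K R)
      (α : G →* (R ≃ₐ[K] R)) (x : I → (R →ₐ[K] K)),
      ringKrullDim R = (Fintype.card D : WithBot ℕ∞) ∧ Function.Injective x ∧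
      (∀ i (g : H i) f, x i (α g f) = x i f) ∧
      (∀ i j (g : G), (∀ f, x i (α g f) = x j f) → ∀ s t,
        (γ i * EE D M k * γ' i) (tr g s) (tr g t) = (γ j * EE D M k * γ' j) s t) ∧
      ∀ i, ∃ e : tangentSpace (x i) ≃ₗ[K] (D → K), ∀ (g : H i) (d d' : tangentSpace (x i)),
        (∀ f, d'.1 f = d.1 (α (g : G)⁻¹ f)) →
        ∀ a, e d' a = ∑ b, algebraMap k K (ρ i g a b) * e d b := by
  classical
  obtain ⟨i0⟩ := (inferInstance : Nonempty I)
  choose P v w S using fun i => sol_exists h01 h02 (dat i)
  let q : I → Sg G E → OO D K := fun i s => upA G E D k K (pq (P i) (v i) s)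
  have HK : ∀ i j g (F : MvPolynomial (Sg G E) K),
      MvPolynomial.aeval (fun s => q i (trS g s)) F = 0 ↔ MvPolynomial.aeval (q j) F = 0 := by
    intro i j g F
    constructor
    · intro hF
      have := sol_ker hcard (S i) (S j) g 1 F hF
      simpa only [trS_one, id] using this
    · intro hF
      apply sol_ker hcard (S j) (S i) 1 g F
      simpa only [trS_one, id] using hF
  obtain ⟨R, iR1, iR2, iR3, iR4, X, α, φ, hadj, hα, hφ, hinj⟩ :=
    abstract_ring trS trS_one trS_mul q HK i0
  let algk : Algebra k R := ((algebraMap K R).comp (algebraMap k K)).toAlgebra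
  have tow : IsScalarTower k K R := IsScalarTower.of_algebraMap_eq' rfl
  let PR : Matrix (G × E) (G × E) R := Matrix.of fun s t => X (Sum.inl (s, t))
  let vR : G × E → R := fun s => X (Sum.inr s)
  let cR : Param G E → R := fun p => algebraMap K R (algebraMap (Kap G E k) K (c0 G E k p))
  let φk : I → (R →ₐ[k] OO D K) := fun i => (φ i).restrictScalars k
  have hP : ∀ i, PR.map (φk i) = (P i).map (upA G E D k K) := by
    intro i
    ext1 s t
    exact hφ i (Sum.inl (s, t))
  have hv : ∀ i s, φk i (vR s) = upA G E D k K (v i s) := fun i s => hφ i (Sum.inr s)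
  have hc : ∀ i p, φk i (cR p) = upA G E D k K (cS G E D k p) := by
    intro i p
    have h1 : φk i (cR p) = algebraMap K (OO D K) (algebraMap (Kap G E k) K (c0 G E k p)) :=
      (φ i).commutes _
    rw [h1, upA_apply, cS, up_algebraMap]
  have mapinj : ∀ A B : Matrix (G × E) (G × E) R, A.map (φk i0) = B.map (φk i0) → A = B := by
    intro A B hAB
    ext1 s t
    exact hinj i0 (congrFun (congrFun hAB s) t)
  have relPP : PR * PR = PR := by
    apply mapinj
    rw [Matrix.map_mul, hP, ← Matrix.map_mul, (S i0).PP]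
  have hvf : (fun s => φk i0 (vR s)) = fun s => upA G E D k K (v i0 s) := funext (hv i0)
  have hcf : (fun s => φk i0 (cR s)) = fun s => upA G E D k K (cS G E D k s) := funext (hc i0)
  have relZ : PR * ZZ h ℓ cR PR vR = ZZ h ℓ cR PR vR * PR := by
    apply mapinj
    rw [Matrix.map_mul, Matrix.map_mul, ZZ_map, hvf, hcf, hP, ← ZZ_map, ← Matrix.map_mul,
      ← Matrix.map_mul, (S i0).PZ]
  have relPv : PR *ᵥ vR = vR := by
    funext s
    apply hinj i0
    have h1 := RingHom.map_mulVec (φk i0 : R →+* OO D K) PR vR s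
    have h2 := RingHom.map_mulVec (upA G E D k K : OO D (Kap G E k) →+* OO D K) (P i0) (v i0) s
    rw [(S i0).Pv] at h2
    have h3 : PR.map (φk i0 : R →+* OO D K) =
      (P i0).map (upA G E D k K : OO D (Kap G E k) →+* OO D K) := hP i0
    have h4 : (φk i0 : R →+* OO D K) ∘ vR =
      (upA G E D k K : OO D (Kap G E k) →+* OO D K) ∘ (v i0) := funext (hv i0)
    rw [h3, h4, ← h2] at h1
    exact h1.trans (hv i0 s).symm
  let x : I → (R →ₐ[K] K) := fun i => (ev D K 0).comp (φ i)
  have hx : ∀ i (ξ : D → K), (ev D K ξ).comp (φ i) = x i := by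
    intro i ξ
    apply AlgHom.ext_of_adjoin_eq_top hadj
    rintro _ ⟨s, rfl⟩
    simp only [x, AlgHom.comp_apply, hφ, q]
    rcases s with ⟨s, t⟩ | s
    · exact (ev_P (S i) ξ s t).trans (ev_P (S i) 0 s t).symm
    · exact (ev_v (S i) ξ s).trans (ev_v (S i) 0 s).symm
  have hxP : ∀ i s t, x i (PR s t) = algebraMap k K ((γ i * EE D M k * γ' i) s t) := by
    intro i s t
    have h1 : φ i (PR s t) = upA G E D k K (P i s t) := hφ i (Sum.inl (s, t))
    simp only [x, AlgHom.comp_apply, h1]
    exact ev_P (S i) 0 s t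
  have hxv : ∀ i s, x i (vR s) = 0 := by
    intro i s
    have h1 : φ i (vR s) = upA G E D k K (v i s) := hφ i (Sum.inr s)
    simp only [x, AlgHom.comp_apply, h1]
    exact ev_v (S i) 0 s
  -- derivations are determined by the values on the coordinates
  have hlin : ∀ i (d : R →ₗ[K] K), d ∈ tangentSpace (x i) → ∀ s, d (vR s) =
      ∑ b, algebraMap k K (γ i s (Sum.inl b)) * d (vR (sD i b)) := by
    intro i d hd
    have h1 : ∀ s, d (vR s) = ∑ b, algebraMap k K (γ i s (Sum.inl b)) *
        ∑ t, algebraMap k K (γ' i (Sum.inl b) t) * d (vR t) := by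
      intro s
      rw [der_v_fixed relPv (hxP i) (hxv i) hd s]
      simp only [P0_apply, map_sum, map_mul, Finset.mul_sum, Finset.sum_mul]
      rw [Finset.sum_comm]
      apply Finset.sum_congr rfl
      intro b _
      apply Finset.sum_congr rfl
      intro t _
      ring
    have h2 : ∀ a, d (vR (sD i a)) = ∑ t, algebraMap k K (γ' i (Sum.inl a) t) * d (vR t) := by
      intro a
      rw [h1 (sD i a)]
      simp only [(dat i).hs]
      rw [Finset.sum_eq_single a]
      · simp
      · intro b _ hb; simp [Ne.symm hb]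
      · intro hnot; exact absurd (Finset.mem_univ a) hnot
    intro s
    rw [h1 s]
    apply Finset.sum_congr rfl
    intro b _
    rw [h2 b]
  have hzero : ∀ i (d : R →ₗ[K] K), d ∈ tangentSpace (x i) → (∀ a, d (vR (sD i a)) = 0) →
      d = 0 := by
    intro i d hd hda
    have hPd : PR.map d = 0 := der_P_zero (dat i).he (dat i).hd relPP relZ (hxP i) (hxv i) hd
    have hvd : ∀ s, d (vR s) = 0 := by
      intro s
      rw [hlin i d hd s]
      apply Finset.sum_eq_zero
      intro b _
      rw [hda b, mul_zero]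
    ext r
    have hr : r ∈ Algebra.adjoin K (Set.range X) := by rw [hadj]; trivial
    simp only [LinearMap.zero_apply]
    induction hr using Algebra.adjoin_induction with
    | mem y hy =>
      obtain ⟨s, rfl⟩ := hy
      rcases s with ⟨s, t⟩ | s
      · exact congrFun (congrFun hPd s) t
      · exact hvd s
    | algebraMap c => exact der_algebraMap hd c
    | add y z _ _ hy hz => rw [map_add, hy, hz, add_zero]
    | mul y z _ _ hy hz => rw [der_mul hd, hy, hz, mul_zero, mul_zero, add_zero]
  refine ⟨R, iR1, iR2, iR3, iR4, α, x, ?_, ?_, ?_, ?_, ?_⟩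
  · -- dimension
    have hwX : ∀ a, PowerSeries.constantCoeff (upA G E D k K (w i0 (sD i0 a))) =
        MvPolynomial.X a := by
      intro a
      rw [upA_apply, const_up, (S i0).w0, map_sum]
      simp only [(dat i0).hs]
      rw [Finset.sum_eq_single a]
      · simp
      · intro b _ hb; simp [Ne.symm hb]
      · intro hnot; exact absurd (Finset.mem_univ a) hnot
    have hind : AlgebraicIndependent K (fun a => upA G E D k K (v i0 (sD i0 a))) := by
      apply algInd_of_lead (κ := K) _ (fun a => upA G E D k K (w i0 (sD i0 a)))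
      · intro a
        have h1 : upA G E D k K PowerSeries.X = PowerSeries.X := by
          rw [upA_apply, up, PowerSeries.map_X]
        rw [(S i0).vw, map_mul, h1]
      · exact hwX
    have hb : AlgebraicIndependent K (fun a => vR (sD i0 a)) := by
      rw [← AlgHom.algebraicIndependent_iff (φ i0) (hinj i0)]
      convert hind using 1
      funext a
      exact hv i0 _
    apply ringKrullDim_of_basis (K := K) (fun a => vR (sD i0 a))
    apply basis_of_dep X hadj _ hb
    intro s hs
    have hg1 := (S i0).good 1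
    have hdep := good_dep hcard hg1 s
    have hdepK := not_algInd_up (K := K) _ hdep
    apply hdepK
    rw [← AlgHom.algebraicIndependent_iff (φ i0) (hinj i0)] at hs
    convert hs using 1
    funext o
    rcases o with _ | a
    · simp only [Option.elim_none, Function.comp_apply]
      rw [hφ]
      rcases s with ⟨s, t⟩ | s
      · simp [q, pq, tr_one, upA_apply]
      · simp [q, pq, tr_one, upA_apply]
    · simp only [Option.elim_some, Function.comp_apply]
      have h1 : φ i0 (vR (sD i0 a)) = upA G E D k K (v i0 (sD i0 a)) := hφ i0 (Sum.inr _)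
      rw [h1]
      simp [tr_one, upA_apply]
  · -- distinct points
    intro i j hij
    apply hdist
    ext1 s t
    have h1 := hxP i s t
    rw [hij, hxP j s t] at h1
    exact ((algebraMap k K).injective h1).symm
  · -- fixed points
    intro i g f
    have h1 : (x i).comp (α g).toAlgHom = x i := by
      apply AlgHom.ext_of_adjoin_eq_top hadj
      rintro _ ⟨s, rfl⟩
      rcases s with ⟨s, t⟩ | s
      · have h2 : α g (X (Sum.inl (s, t))) = PR (tr (g : G) s) (tr (g : G) t) := hα _ _
        have h3 : X (Sum.inl (s, t)) = PR s t := rfl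
        change x i (α g (X (Sum.inl (s, t)))) = x i (X (Sum.inl (s, t)))
        rw [h2, h3, hxP, hxP, hfix]
      · have h2 : α g (X (Sum.inr s)) = vR (tr (g : G) s) := hα _ _
        have h3 : X (Sum.inr s) = vR s := rfl
        change x i (α g (X (Sum.inr s))) = x i (X (Sum.inr s))
        rw [h2, h3, hxv, hxv]
    exact congrArg (fun z : R →ₐ[K] K => z f) h1
  · -- the values on the matrix coordinates
    intro i j g hf s t
    have h1 : α g (PR s t) = PR (tr g s) (tr g t) := hα g (Sum.inl (s, t))
    have h2 := hf (PR s t)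
    rw [h1, hxP, hxP] at h2
    exact (algebraMap k K).injective h2
  · -- tangent space
    intro i
    let Φ : tangentSpace (x i) →ₗ[K] (D → K) :=
      { toFun := fun d a => d.1 (vR (sD i a))
        map_add' := by intro d d'; rfl
        map_smul' := by intro r d; rfl }
    have hΦi : Function.Injective Φ := by
      rw [injective_iff_map_eq_zero]
      intro d hd
      apply Subtype.ext
      apply hzero i d.1 d.2
      intro a
      exact congrFun hd a
    have hΦs : Function.Surjective Φ := by
      intro ξ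
      refine ⟨⟨(ev1 D K ξ).comp (φ i).toLinearMap, ?_⟩, ?_⟩
      · intro f g
        have e1 : ∀ f, ev D K ξ (φ i f) = x i f := by
          intro f
          rw [← hx i ξ]; rfl
        simp only [LinearMap.comp_apply, AlgHom.toLinearMap_apply, map_mul, ev1_mul, e1]
      · funext a
        have h1 : φ i (vR (sD i a)) = upA G E D k K (v i (sD i a)) := hφ i (Sum.inr _)
        change ev1 D K ξ (φ i (vR (sD i a))) = ξ a
        rw [h1, ev1_v (S i)]
        simp only [(dat i).hs]
        rw [Finset.sum_eq_single a]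
        · simp
        · intro b _ hb; simp [Ne.symm hb]
        · intro hnot; exact absurd (Finset.mem_univ a) hnot
    refine ⟨LinearEquiv.ofBijective Φ ⟨hΦi, hΦs⟩, ?_⟩
    intro g d d' hdd a
    change d'.1 (vR (sD i a)) = ∑ b, algebraMap k K (ρ i g a b) * d.1 (vR (sD i b))
    rw [hdd]
    have h2 : α (g : G)⁻¹ (vR (sD i a)) = vR (tr (g : G)⁻¹ (sD i a)) := hα _ _
    rw [h2, hlin i d.1 d.2]
    apply Finset.sum_congr rfl
    intro b _
    rw [hρ]

end Main

section Sep

variable {G I D : Type} [Group G] [Fintype G] [DecidableEq G] [Fintype I] [DecidableEq I]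
  [Fintype D] [DecidableEq D]
variable {k : Type} [Field k] [CharZero k]
variable {H : I → Subgroup G} {R : I → G → Matrix D D k}

/-- the base idempotents are separated by translations outside the subgroups -/
theorem base_sep [Nonempty D] (rd : RD H R) (i j : I) (g : G)
    (hij : ∀ s t, (iot R i * pii H R i) (tr g s) (tr g t) = (iot R j * pii H R j) s t) :
    i = j ∧ g ∈ H i := by
  obtain ⟨a⟩ := (inferInstance : Nonempty D)
  have h1 := hij ((1 : G), (j, a)) ((1 : G), (j, a))
  have h2 : (iot R j * pii H R j) ((1 : G), (j, a)) ((1 : G), (j, a)) =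
      (Nat.card (H j) : k)⁻¹ := by
    rw [Matrix.mul_apply]
    simp only [iot, pii, Matrix.of_apply, if_true, inv_one, rd.one]
    rw [Finset.sum_eq_single a]
    · simp
    · intro b _ hb
      simp [Matrix.one_apply, Ne.symm hb, hb]
    · intro hnot; exact absurd (Finset.mem_univ a) hnot
  rw [h2] at h1
  have h3 : (Nat.card (H j) : k)⁻¹ ≠ 0 := inv_ne_zero (card_ne j)
  by_contra hcon
  apply h3
  rw [← h1, Matrix.mul_apply]
  apply Finset.sum_eq_zero
  intro b _
  simp only [iot, pii, Matrix.of_apply, tr, mul_one]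
  by_cases hji : j = i
  · subst hji
    have hg : g ∉ H j := fun h => hcon ⟨rfl, h⟩
    have hg' : g⁻¹ ∉ H j := fun h => hg (by simpa using (H j).inv_mem h)
    rw [if_pos rfl, rd.out j _ hg']
    simp
  · rw [if_neg hji]
    simp

end Sep

section Assemble

/-- `matrix_version` of `PartM` with exact stabilisers and points in distinct orbits. -/
theorem matrix_version2 (G : Type) [Group G] [Finite G] (I : Type) [Finite I] [Nonempty I]
    (d : ℕ) (hd : 1 ≤ d) (H : I → Subgroup G) (ρ : ∀ i, H i →* Matrix (Fin d) (Fin d) ℂ)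
    (hρ : ∀ i, Function.Injective (ρ i)) :
    ∃ (R : Type) (_ : CommRing R) (_ : IsDomain R) (_ : Algebra ℂ R) (_ : Algebra.FiniteType ℂ R)
      (α : G →* (R ≃ₐ[ℂ] R)) (x : I → (R →ₐ[ℂ] ℂ)),
      ringKrullDim R = (d : WithBot ℕ∞) ∧ Function.Injective x ∧
      (∀ i (g : H i) f, x i (α g f) = x i f) ∧
      (∀ i j (g : G), (∀ f, x i (α g f) = x j f) → i = j ∧ g ∈ H i) ∧
      ∀ i, ∃ e : tangentSpace (x i) ≃ₗ[ℂ] (Fin d → ℂ), ∀ (g : H i) (D D' : tangentSpace (x i)),
        (∀ f, D'.1 f = D.1 (α (g : G)⁻¹ f)) → ∀ a, e D' a = ∑ b, ρ i g a b * e D b := by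
  classical
  have := Fintype.ofFinite G
  have := Fintype.ofFinite I
  have : Nonempty (Fin d) := ⟨⟨0, hd⟩⟩
  let S : Set ℂ := Set.range (fun p : Σ i : I, H i × (Fin d × Fin d) => ρ p.1 p.2.1 p.2.2.1 p.2.2.2)
  let k : Subfield ℂ := Subfield.closure S
  have hk : Cardinal.mk k ≤ Cardinal.aleph0 := by
    refine (Subfield.cardinalMk_closure_le_max S).trans (max_le ?_ le_rfl)
    exact Cardinal.mk_le_aleph0_iff.mpr (Set.countable_range _)
  have hmem : ∀ i (g : H i) a b, ρ i g a b ∈ k := by
    intro i g a b
    exact Subfield.subset_closure ⟨⟨i, g, a, b⟩, rfl⟩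
  let R : I → G → Matrix (Fin d) (Fin d) k := fun i g =>
    if hg : g ∈ H i then Matrix.of fun a b => ⟨ρ i ⟨g, hg⟩ a b, hmem i ⟨g, hg⟩ a b⟩ else 0
  have hR : ∀ i g (hg : g ∈ H i), (R i g).map (algebraMap k ℂ) = ρ i ⟨g, hg⟩ := by
    intro i g hg
    ext a b
    simp only [R, dif_pos hg, Matrix.map_apply, Matrix.of_apply]
    rfl
  have minj : ∀ A B : Matrix (Fin d) (Fin d) k, A.map (algebraMap k ℂ) = B.map (algebraMap k ℂ) →
      A = B := by
    intro A B hAB
    ext1 a b
    exact (algebraMap k ℂ).injective (congrFun (congrFun hAB a) b)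
  have hone : (1 : Matrix (Fin d) (Fin d) k).map (algebraMap k ℂ) = 1 :=
    Matrix.map_one _ (map_zero _) (map_one _)
  have rd : RD H R := by
    refine ⟨?_, ?_, ?_, ?_⟩
    · intro i
      apply minj
      rw [hR i 1 (H i).one_mem, hone]
      exact map_one (ρ i)
    · intro i g g' hg hg'
      apply minj
      rw [Matrix.map_mul, hR i g hg, hR i g' hg', hR i _ ((H i).mul_mem hg hg'), ← map_mul]
      rfl
    · intro i g hg
      simp only [R, dif_neg hg]
    · intro i g hg h1
      have h2 : ρ i ⟨g, hg⟩ = 1 := by rw [← hR i g hg, h1, hone]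
      have h3 := hρ i (h2.trans (map_one (ρ i)).symm)
      exact congrArg Subtype.val h3
  have hle : d ≤ Fintype.card (G × (I × Fin d)) := by
    rw [Fintype.card_prod, Fintype.card_prod, Fintype.card_fin, ← mul_assoc]
    exact Nat.le_mul_of_pos_left _ (Nat.mul_pos Fintype.card_pos Fintype.card_pos)
  have hcard : Fintype.card (G × (I × Fin d)) =
      Fintype.card (Fin d ⊕ Fin (Fintype.card (G × (I × Fin d)) - d)) := by
    rw [Fintype.card_sum, Fintype.card_fin, Fintype.card_fin]
    omega
  obtain ⟨h, ℓ, γ0, γ0', γ, γ', c1, c2, dat, c3, c4⟩ := data_exists rd hcard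
  obtain ⟨c, hc⟩ := exists_params k hk (Param G (I × Fin d))
  obtain ⟨θ, hθ⟩ := exists_theta c hc
  let algθ : Algebra (Kap G (I × Fin d) k) ℂ := θ.toRingHom.toAlgebra
  have tow : IsScalarTower k (Kap G (I × Fin d) k) ℂ :=
    IsScalarTower.of_algebraMap_eq (fun r => (θ.commutes r).symm)
  obtain ⟨Q, q1, q2, q3, q4, α, x, e1, e2, e3, e5, e4⟩ := ring_main2 (K := ℂ) hcard c1 c2 γ γ'
    (fun i a => ((1 : G), (i, a))) dat H (fun i g => R i g)
    (by
      intro i g a b
      rw [c3]
      simp only [iot, tr, Matrix.of_apply, if_true, mul_one, inv_inv])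
    (by
      intro i g s t
      rw [c4]
      exact base_fix rd i g g.2 s t)
    (by
      intro i j hij
      rw [c4, c4] at hij
      exact base_dist rd i j hij)
  refine ⟨Q, q1, q2, q3, q4, α, x, ?_, e2, e3, ?_, ?_⟩
  · rw [e1, Fintype.card_fin]
  · intro i j g hf
    apply base_sep rd i j g
    intro s t
    have h1 := e5 i j g hf s t
    rwa [c4, c4] at h1
  · intro i
    obtain ⟨e, he⟩ := e4 i
    refine ⟨e, ?_⟩
    intro g D D' hDD a
    rw [he g D D' hDD a]
    apply Finset.sum_congr rfl
    intro b _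
    congr 1
    have := congrFun (congrFun (hR i g g.2) a) b
    exact this

end Assemble

end Pool.Agent.Y59.RI
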